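import Pool.Agent.J6H55.MA.Lvl

/-!
# Every sequence with few bad windows is close to a point of the shift space
-/

set_option autoImplicit false

namespace Pool.Agent.J6H55.MA

section

variable {W : ℕ → Set (List Bool)} {M C Cb n G Z : ℕ → ℕ} {a : ℕ → Bool}

/-- the data of the construction -/
structure Dat (W : ℕ → Set (List Bool)) (C Cb n G : ℕ → ℕ) (a : ℕ → Bool) (τ : ℕ → ℕ → Bool)
    (P : ℕ → ℕ) : Prop where
  cat : ∀ k, win (τ k) 0 (P k) ∈ Cat (W k)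
  low : ∀ k, G k ≤ P k
  agree : ∀ k, ∀ i < k + 2, τ (k + 1) i = τ k i
  close : ∀ k N, N + C k ≤ P k → 2 ^ (k + 1) * mis (τ k) (τ (k + 1)) N ≤ N
  follow : ∀ k m, P k + m ≤ P (k + 1) → mis a (τ (k + 1)) (P k + m) ≤ mis a (τ (k + 1)) (P k) +
    (Cb (k + 1) * (m / n (k + 1) + 1) + n (k + 1) * bad (W (k + 1)) a (n (k + 1)) (P k + m))
  grow : ∀ k, (k + 10) * P k ≤ P (k + 1)
  grow' : ∀ k, P k + C (k + 1) ≤ P (k + 1)

theorem exists_dat (hW : W 0 = W₀) (hN : ∀ k, Nxt k (W k) (W (k + 1)) (C k))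
    (hn : ∀ k, 1 ≤ n k) (hb : ∀ k, ∀ x : ℕ → Bool, ∃ z : ℕ → Bool, win z 0 (n k) ∈ Cat (W k) ∧
      (win x 0 (n k) ∈ Lng (W k) → mis x z (n k) ≤ Cb k))
    (hG : ∀ k, k + 2 ≤ G k) (hGC : ∀ k, C k ≤ G k) (a : ℕ → Bool) :
    ∃ τ P, Dat W C Cb n G a τ P := by
  classical
  obtain ⟨s, h1, h2⟩ := exists_seq (α := (ℕ → Bool) × ℕ)
    (Good := fun k s => win s.1 0 s.2 ∈ Cat (W k) ∧ G k ≤ s.2)
    (Rel := fun k s s' => (∀ i < k + 2, s'.1 i = s.1 i) ∧
      (∀ N, N + C k ≤ s.2 → 2 ^ (k + 1) * mis s.1 s'.1 N ≤ N) ∧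
      (∀ m, s.2 + m ≤ s'.2 → mis a s'.1 (s.2 + m) ≤ mis a s'.1 s.2 +
        (Cb (k + 1) * (m / n (k + 1) + 1) + n (k + 1) * bad (W (k + 1)) a (n (k + 1)) (s.2 + m))) ∧
      (k + 10) * s.2 ≤ s'.2 ∧ s.2 + C (k + 1) ≤ s'.2)
    ⟨(a, G 0), by rw [hW]; exact cat₀ _, le_rfl⟩ (by
      rintro k ⟨x, P⟩ ⟨hx, hP⟩
      simp only at hx hP
      obtain ⟨x', g1, g2, g3⟩ := (hN k).step x P ((hGC k).trans hP) hx
      obtain ⟨r, hr⟩ : ∃ r, r = G (k + 1) + C (k + 1) + (k + 10) * P := ⟨_, rfl⟩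
      obtain ⟨z, g4, g5⟩ := region (hb (k + 1)) (fun i => a (P + i)) r
      have hkP : k + 2 ≤ P := (hG k).trans hP
      have hrn : r ≤ r * n (k + 1) := Nat.le_mul_of_pos_right r (hn (k + 1))
      refine ⟨(glue x' P z, P + r * n (k + 1)), ⟨?_, ?_⟩, ?_, ?_, ?_, ?_, ?_⟩
      · simp only
        rw [win_glue]
        exact cat_append g1 g4
      · simp only
        omega
      · intro i hi
        simp only
        rw [glue_lt (by omega)]
        exact (g2 i hi).symm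
      · intro N hN'
        simp only at hN' ⊢
        have h3 : mis x (glue x' P z) N = mis x x' N :=
          mis_congr (fun _ _ => rfl) fun i hi => glue_lt (by omega)
        rw [h3]
        exact g3 N hN'
      · intro m hm
        simp only at hm ⊢
        have hmr : m ≤ r * n (k + 1) := by omega
        have h3 : mis a (glue x' P z) (P + m) = mis a (glue x' P z) P +
            mis (fun i => a (P + i)) z m := by
          rw [mis_add]
          congr 1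
          exact mis_congr (fun _ _ => rfl) fun i _ => glue_add
        rw [h3]
        have hj : m ≤ (m / n (k + 1) + 1) * n (k + 1) := by
          have := Nat.lt_div_mul_add (a := m) (b := n (k + 1)) (hn (k + 1))
          have h4 : (m / n (k + 1) + 1) * n (k + 1) = m / n (k + 1) * n (k + 1) + n (k + 1) := by ring
          omega
        have h5 := g5 m hmr _ hj
        have h6 := Nat.mul_le_mul_left (n (k + 1)) (bad_shift (W (k + 1)) a (n (k + 1)) P m)
        omega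
      · simp only
        omega
      · simp only
        omega)
  exact ⟨fun k => (s k).1, fun k => (s k).2, fun k => (h1 k).1, fun k => (h1 k).2,
    fun k => (h2 k).1, fun k => (h2 k).2.1, fun k => (h2 k).2.2.1, fun k => (h2 k).2.2.2.1,
    fun k => (h2 k).2.2.2.2⟩

variable {τ : ℕ → ℕ → Bool} {P : ℕ → ℕ}

theorem Dat.stable (h : Dat W C Cb n G a τ P) {i k : ℕ} (hik : i ≤ k) : τ k i = τ i i := by
  induction k with
  | zero =>
    have : i = 0 := by omega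
    rw [this]
  | succ k ih =>
    rcases Nat.lt_or_ge k i with h1 | h1
    · have : i = k + 1 := by omega
      rw [this]
    · rw [h.agree k i (by omega)]
      exact ih h1

theorem Dat.mem (h : Dat W C Cb n G a τ P) (hN : ∀ k, Nxt k (W k) (W (k + 1)) (C k))
    (hG : ∀ k, k + 2 ≤ G k) : (fun i => τ i i) ∈ Xs W := by
  intro k i m
  obtain ⟨j, hj⟩ : ∃ j, j = k + (i + m) := ⟨_, rfl⟩
  have h1 : win (fun i => τ i i) i m = win (τ j) i m := win_congr fun t ht => by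
    exact (h.stable (by omega)).symm
  rw [h1]
  refine ⟨win (τ j) 0 (P j), sub_of_le hN (by omega) (h.cat j), win_infix _ ?_⟩
  have h2 := h.low j
  have h3 := hG j
  omega

theorem Dat.mono (h : Dat W C Cb n G a τ P) {j k : ℕ} (hjk : j ≤ k) : P j ≤ P k := by
  induction k with
  | zero =>
    have : j = 0 := by omega
    rw [this]
  | succ k ih =>
    rcases Nat.lt_or_ge k j with h1 | h1
    · have : j = k + 1 := by omega
      rw [this]
    · have h2 := h.grow' k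
      have h3 := ih h1
      omega

/-- the following part -/
theorem Dat.foll (h : Dat W C Cb n G a τ P) (hCn : ∀ k, (k + 1) * Cb k ≤ n k)
    (hZ : ∀ k N, Z k ≤ N → (k + 1) * (n k * bad (W k) a (n k) N) ≤ N)
    (hG1 : ∀ k, (k + 1) * Cb (k + 1) ≤ G k) (hG2 : ∀ k, Z (k + 1) ≤ G k) (k N : ℕ)
    (h1 : P k ≤ N) (h2 : N ≤ P (k + 1)) :
    (k + 1) * mis a (τ (k + 1)) N ≤ (k + 1) * mis a (τ (k + 1)) (P k) + 3 * N := by
  obtain ⟨m, rfl⟩ := Nat.exists_eq_add_of_le h1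
  have h3 := h.follow k m h2
  have h4 := hZ (k + 1) (P k + m) (((hG2 k).trans (h.low k)).trans h1)
  have h5 : (k + 1 + 1) * Cb (k + 1) * (m / n (k + 1)) ≤ m :=
    (Nat.mul_le_mul_right _ (hCn (k + 1))).trans (Nat.mul_div_le m _)
  have h6 := (hG1 k).trans (h.low k)
  have h7 := Nat.mul_le_mul_left (k + 1) h3
  have h8 : (k + 1) * (mis a (τ (k + 1)) (P k) +
      (Cb (k + 1) * (m / n (k + 1) + 1) + n (k + 1) * bad (W (k + 1)) a (n (k + 1)) (P k + m))) =
      (k + 1) * mis a (τ (k + 1)) (P k) + (k + 1) * Cb (k + 1) * (m / n (k + 1)) +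
        (k + 1) * Cb (k + 1) +
        (k + 1) * (n (k + 1) * bad (W (k + 1)) a (n (k + 1)) (P k + m)) := by ring
  have h9 : (k + 1) * Cb (k + 1) * (m / n (k + 1)) ≤ (k + 1 + 1) * Cb (k + 1) * (m / n (k + 1)) :=
    Nat.mul_le_mul_right _ (Nat.mul_le_mul_right _ (by omega))
  have h10 : (k + 1) * (n (k + 1) * bad (W (k + 1)) a (n (k + 1)) (P k + m)) ≤
      (k + 1 + 1) * (n (k + 1) * bad (W (k + 1)) a (n (k + 1)) (P k + m)) :=
    Nat.mul_le_mul_right _ (by omega)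
  omega

/-- one step -/
theorem Dat.one (h : Dat W C Cb n G a τ P) (k N : ℕ) (h1 : N ≤ P k) :
    (k + 1) * mis (τ k) (τ (k + 1)) N ≤ N + (k + 1) * C k := by
  have h2 : mis (τ k) (τ (k + 1)) N ≤ mis (τ k) (τ (k + 1)) (N - C k) + C k := by
    rcases Nat.lt_or_ge N (C k) with h3 | h3
    · have h4 := mis_le (τ k) (τ (k + 1)) N
      omega
    · have h4 := mis_add_le (τ k) (τ (k + 1)) (N - C k) (C k)
      rwa [Nat.sub_add_cancel h3] at h4
  have h3 : (k + 1) * mis (τ k) (τ (k + 1)) (N - C k) ≤ N := by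
    rcases Nat.lt_or_ge N (C k) with h3 | h3
    · have h4 : N - C k = 0 := by omega
      rw [h4]
      have h5 := mis_le (τ k) (τ (k + 1)) 0
      have h6 : mis (τ k) (τ (k + 1)) 0 = 0 := by omega
      rw [h6]
      omega
    · have h4 := h.close k (N - C k) (by omega)
      have h5 : k + 1 ≤ 2 ^ (k + 1) := Nat.lt_two_pow_self.le
      have h6 := Nat.mul_le_mul_right (mis (τ k) (τ (k + 1)) (N - C k)) h5
      omega
  have h4 := Nat.mul_le_mul_left (k + 1) h2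
  have h5 : (k + 1) * (mis (τ k) (τ (k + 1)) (N - C k) + C k) =
    (k + 1) * mis (τ k) (τ (k + 1)) (N - C k) + (k + 1) * C k := by ring
  omega

/-- all later steps -/
theorem Dat.tail (h : Dat W C Cb n G a τ P) (k N : ℕ) (h1 : N ≤ P k) (J : ℕ) (hJ : k + 1 ≤ J) :
    (mis (τ (k + 1)) (τ J) N : ℝ) ≤ N * (1 / 2 ^ (k + 1) - 1 / 2 ^ J) := by
  induction J with
  | zero => omega
  | succ J ih =>
    rcases Nat.lt_or_ge k J with h2 | h2
    · have h3 := ih (by omega)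
      have h4 : (mis (τ (k + 1)) (τ (J + 1)) N : ℝ) ≤ mis (τ (k + 1)) (τ J) N +
          mis (τ J) (τ (J + 1)) N := by exact_mod_cast mis_tri _ _ _ _
      have h5 : 2 ^ (J + 1) * mis (τ J) (τ (J + 1)) N ≤ N := by
        refine h.close J N ?_
        obtain ⟨J', rfl⟩ : ∃ J', J = J' + 1 := ⟨J - 1, by omega⟩
        have h6 := h.grow' J'
        have h7 := h.mono (show k ≤ J' by omega)
        omega
      have h6 : (2 : ℝ) ^ (J + 1) * mis (τ J) (τ (J + 1)) N ≤ N := by exact_mod_cast h5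
      have h7 : (mis (τ J) (τ (J + 1)) N : ℝ) ≤ N * (1 / 2 ^ (J + 1)) := by
        rw [mul_one_div, le_div_iff₀ (by positivity)]
        linarith
      have h8 : (1 : ℝ) / 2 ^ J = 2 * (1 / 2 ^ (J + 1)) := by
        rw [pow_succ]
        field_simp
      have h9 : (N : ℝ) * (1 / 2 ^ (k + 1) - 1 / 2 ^ J) =
        N * (1 / 2 ^ (k + 1)) - 2 * (N * (1 / 2 ^ (J + 1))) := by
        rw [h8]
        ring
      rw [mul_sub]
      linarith
    · have h3 : J = k := by omega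
      subst h3
      have h4 : mis (τ (J + 1)) (τ (J + 1)) N = 0 := by
        unfold mis
        simp
      rw [h4]
      simp

theorem Dat.main (h : Dat W C Cb n G a τ P) (hCn : ∀ k, (k + 1) * Cb k ≤ n k)
    (hZ : ∀ k N, Z k ≤ N → (k + 1) * (n k * bad (W k) a (n k) N) ≤ N)
    (hG1 : ∀ k, (k + 1) * Cb (k + 1) ≤ G k) (hG2 : ∀ k, Z (k + 1) ≤ G k)
    (hG3 : ∀ k, (k + 1) * C k ≤ G k) (hG4 : ∀ k, (k + 2) * C (k + 1) ≤ G k) (k N : ℕ) (hk : 1 ≤ k)
    (h1 : P k ≤ N) (h2 : N ≤ P (k + 1)) : k * mis a (fun i => τ i i) N ≤ 12 * N := by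
  obtain ⟨k, rfl⟩ : ∃ k', k = k' + 1 := ⟨k - 1, by omega⟩
  -- up to `P (k + 1)`
  have e1 := h.foll hCn hZ hG1 hG2 k (P (k + 1)) (h.mono (Nat.le_succ k)) le_rfl
  have e2 := mis_le a (τ (k + 1)) (P k)
  have e3 := h.grow k
  have e4 : (k + 1) * P k ≤ (k + 10) * P k := Nat.mul_le_mul_right _ (by omega)
  have e5 : (k + 1) * mis a (τ (k + 1)) (P k) ≤ (k + 1) * P k := Nat.mul_le_mul_left _ e2
  have a1 : (k + 1) * mis a (τ (k + 1)) (P (k + 1)) ≤ 4 * P (k + 1) := by omega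
  -- the step at `k + 1`
  have b1 := h.one (k + 1) (P (k + 1)) le_rfl
  have b2 := (hG3 (k + 1)).trans (h.low (k + 1))
  have b3 : (k + 1) * mis (τ (k + 1)) (τ (k + 1 + 1)) (P (k + 1)) ≤
      (k + 1 + 1) * mis (τ (k + 1)) (τ (k + 1 + 1)) (P (k + 1)) :=
    Nat.mul_le_mul_right _ (by omega)
  have b4 := Nat.mul_le_mul_left (k + 1) (mis_tri a (τ (k + 1)) (τ (k + 1 + 1)) (P (k + 1)))
  rw [Nat.mul_add] at b4
  have a2 : (k + 1) * mis a (τ (k + 1 + 1)) (P (k + 1)) ≤ 6 * P (k + 1) := by omega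
  -- up to `N`
  have c1 := h.foll hCn hZ hG1 hG2 (k + 1) N h1 h2
  have c2 := h.follow (k + 1) (N - P (k + 1)) (by omega)
  have a3 : (k + 1) * mis a (τ (k + 1 + 1)) N ≤ 9 * N := by
    -- from `(k + 2) * mis N ≤ (k + 2) * mis P + 3 N`
    have c3 : mis a (τ (k + 1 + 1)) (P (k + 1)) ≤ mis a (τ (k + 1 + 1)) N := mis_mono _ _ h1
    have c4 : (k + 1 + 1) * mis a (τ (k + 1 + 1)) N =
      (k + 1) * mis a (τ (k + 1 + 1)) N + mis a (τ (k + 1 + 1)) N := by ring
    have c5 : (k + 1 + 1) * mis a (τ (k + 1 + 1)) (P (k + 1)) =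
      (k + 1) * mis a (τ (k + 1 + 1)) (P (k + 1)) + mis a (τ (k + 1 + 1)) (P (k + 1)) := by ring
    omega
  -- the next step
  have d1 := h.one (k + 1 + 1) N (h2)
  have d2 := (hG4 (k + 1)).trans (h.low (k + 1))
  have d3 : (k + 1) * mis (τ (k + 1 + 1)) (τ (k + 1 + 1 + 1)) N ≤
      (k + 1 + 1 + 1) * mis (τ (k + 1 + 1)) (τ (k + 1 + 1 + 1)) N :=
    Nat.mul_le_mul_right _ (by omega)
  have d4 := Nat.mul_le_mul_left (k + 1) (mis_tri a (τ (k + 1 + 1)) (τ (k + 1 + 1 + 1)) N)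
  rw [Nat.mul_add] at d4
  have a4 : (k + 1) * mis a (τ (k + 1 + 1 + 1)) N ≤ 11 * N := by
    have d5 : (k + 1 + 2) * C (k + 1 + 1) = (k + 1 + 1 + 1) * C (k + 1 + 1) := by ring
    omega
  -- the other steps
  obtain ⟨J, hJ⟩ : ∃ J, J = N + (k + 1 + 1 + 1) := ⟨_, rfl⟩
  have f1 := h.tail (k + 1 + 1) N h2 J (by omega)
  have f2 : mis a (fun i => τ i i) N = mis a (τ J) N :=
    mis_congr (fun _ _ => rfl) fun i hi => (h.stable (by omega)).symm
  have f3 := mis_tri a (τ (k + 1 + 1 + 1)) (τ J) N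
  have f4 : (k + 1) * mis (τ (k + 1 + 1 + 1)) (τ J) N ≤ N := by
    have g1 : (k + 1 : ℝ) * mis (τ (k + 1 + 1 + 1)) (τ J) N ≤ N := by
      have g2 : (mis (τ (k + 1 + 1 + 1)) (τ J) N : ℝ) ≤ N * (1 / 2 ^ (k + 1 + 1 + 1)) := by
        refine f1.trans (mul_le_mul_of_nonneg_left ?_ (Nat.cast_nonneg N))
        have : (0 : ℝ) ≤ 1 / 2 ^ J := by positivity
        linarith
      have g3 : (k + 1 : ℝ) ≤ 2 ^ (k + 1 + 1 + 1) := by
        have g4 : k + 1 ≤ 2 ^ (k + 1 + 1 + 1) := by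
          have g5 : k + 1 + 1 + 1 < 2 ^ (k + 1 + 1 + 1) := Nat.lt_two_pow_self
          omega
        exact_mod_cast g4
      have g6 : (k + 1 : ℝ) * (1 / 2 ^ (k + 1 + 1 + 1)) ≤ 1 := by
        rw [mul_one_div, div_le_one (by positivity)]
        exact g3
      calc (k + 1 : ℝ) * mis (τ (k + 1 + 1 + 1)) (τ J) N
          ≤ (k + 1 : ℝ) * (N * (1 / 2 ^ (k + 1 + 1 + 1))) :=
            mul_le_mul_of_nonneg_left g2 (by positivity)
        _ = N * ((k + 1 : ℝ) * (1 / 2 ^ (k + 1 + 1 + 1))) := by ring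
        _ ≤ N * 1 := mul_le_mul_of_nonneg_left g6 (Nat.cast_nonneg N)
        _ = N := mul_one _
    exact_mod_cast g1
  have f5 := Nat.mul_le_mul_left (k + 1) f3
  rw [Nat.mul_add] at f5
  rw [f2]
  omega

end

end Pool.Agent.J6H55.MA
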