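import Pool.Agent.J6H55.MA.Core

/-!
# The final step
-/

set_option autoImplicit false

namespace Pool.Agent.J6H55.MA

open Filter Topology

theorem tendsto_of {a y : ℕ → Bool} {P : ℕ → ℕ} (hP : ∀ k, k ≤ P k)
    (h : ∀ k N, 1 ≤ k → P k ≤ N → N ≤ P (k + 1) → k * mis a y N ≤ 12 * N) :
    Tendsto (fun N : ℕ => (mis a y N : ℝ) / N) atTop (𝓝 0) := by
  have key : ∀ k, 1 ≤ k → ∀ N, P k ≤ N → k * mis a y N ≤ 12 * N := by
    intro k hk N hN
    obtain ⟨j, hj⟩ : ∃ j, j = Nat.findGreatest (fun j => P j ≤ N) N := ⟨_, rfl⟩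
    have hkN : k ≤ N := (hP k).trans hN
    have h1 : k ≤ j := by
      rw [hj]
      exact Nat.le_findGreatest hkN hN
    have h2 : P j ≤ N := by
      rw [hj]
      exact Nat.findGreatest_spec (P := fun j => P j ≤ N) hkN hN
    have h3 : N ≤ P (j + 1) := by
      by_contra hcon
      rw [not_le] at hcon
      have h4 : j + 1 ≤ N := (hP (j + 1)).trans hcon.le
      have h5 := Nat.le_findGreatest (P := fun j => P j ≤ N) h4 hcon.le
      rw [← hj] at h5
      omega
    exact (Nat.mul_le_mul_right _ h1).trans (h j N (hk.trans h1) h2 h3)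
  rw [Metric.tendsto_atTop]
  intro ε hε
  obtain ⟨k, hk⟩ := exists_nat_gt (12 / ε)
  have hk0 : 0 < (k : ℝ) := lt_trans (by positivity) hk
  have hk1 : 1 ≤ k := by
    have : 0 < k := by exact_mod_cast hk0
    omega
  refine ⟨max (P k) 1, fun N hN => ?_⟩
  have h1 := key k hk1 N ((le_max_left _ _).trans hN)
  have hN1 : 1 ≤ N := (le_max_right _ _).trans hN
  have hN0 : 0 < (N : ℝ) := by exact_mod_cast hN1
  have h2 : (k : ℝ) * mis a y N ≤ 12 * N := by exact_mod_cast h1
  rw [Real.dist_eq, sub_zero, abs_of_nonneg (by positivity), div_lt_iff₀ hN0]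
  have h3 : 12 < k * ε := by
    rw [div_lt_iff₀ hε] at hk
    exact hk
  have h4 : (k : ℝ) * mis a y N < k * (ε * N) := by
    calc (k : ℝ) * mis a y N ≤ 12 * N := h2
      _ < (k * ε) * N := by nlinarith
      _ = k * (ε * N) := by ring
  exact lt_of_mul_lt_mul_left h4 hk0.le

theorem exists_threshold {f : ℕ → ℕ} (h : Tendsto (fun N : ℕ => (f N : ℝ) / N) atTop (𝓝 0))
    (c : ℕ) : ∃ Z, ∀ N, Z ≤ N → c * f N ≤ N := by
  rw [Metric.tendsto_atTop] at h
  obtain ⟨Z, hZ⟩ := h (1 / (c + 1)) (by positivity)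
  refine ⟨max Z 1, fun N hN => ?_⟩
  have h1 := hZ N ((le_max_left _ _).trans hN)
  have hN1 : 1 ≤ N := (le_max_right _ _).trans hN
  have hN0 : 0 < (N : ℝ) := by exact_mod_cast hN1
  rw [Real.dist_eq, sub_zero, abs_of_nonneg (by positivity), div_lt_iff₀ hN0, one_div_mul_eq_div,
    lt_div_iff₀ (by positivity)] at h1
  have h2 : (c : ℝ) * f N ≤ N := by
    have h3 : (0 : ℝ) ≤ f N := Nat.cast_nonneg _
    nlinarith
  exact_mod_cast h2

/-- **A nontrivial minimal system with the asymptotic average shadowing property.** -/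
theorem main (hstep : S_step) (hblk : S_blk) (hin1 : S_in1) (hin2 : S_in2) (hmet : S_met) :
    ∃ (Y : Type) (_ : MetricSpace Y) (f : Y → Y), CompactSpace Y ∧ Continuous f ∧ Nontrivial Y ∧
      Minimal f ∧ AASP f := by
  classical
  obtain ⟨W, M, C, hL, hW, hN⟩ := levels hstep
  choose Cb hCb using fun k => hblk (W k) (k + 1) (M k) (hL k)
  let n : ℕ → ℕ := fun k => (k + 1) * Cb k + 1
  have hn : ∀ k, 1 ≤ n k := fun k => Nat.le_add_left _ _
  have hnC : ∀ k, (k + 1) * Cb k ≤ n k := fun k => Nat.le_add_right _ _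
  have hnC' : ∀ k, Cb k ≤ n k := fun k =>
    (Nat.le_mul_of_pos_left (Cb k) (Nat.succ_pos k)).trans (hnC k)
  have hb : ∀ k, ∀ x : ℕ → Bool, ∃ z : ℕ → Bool, win z 0 (n k) ∈ Cat (W k) ∧
      (win x 0 (n k) ∈ Lng (W k) → mis x z (n k) ≤ Cb k) := fun k => hCb k (n k) (hnC' k)
  have core : ∀ (a : ℕ → Bool) (Z : ℕ → ℕ),
      (∀ k N, Z k ≤ N → (k + 1) * (n k * bad (W k) a (n k) N) ≤ N) →
      ∃ y ∈ Xs W, Tendsto (fun N : ℕ => (mis a y N : ℝ) / N) atTop (𝓝 0) := by
    intro a Z hZ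
    let G : ℕ → ℕ := fun k => (k + 2) + (k + 1) * Cb (k + 1) + Z (k + 1) + (k + 1) * C k +
      (k + 2) * C (k + 1)
    have hG0 : ∀ k, k + 2 ≤ G k := fun k => by
      show k + 2 ≤ _ + _ + _ + _ + _
      omega
    have hG1 : ∀ k, (k + 1) * Cb (k + 1) ≤ G k := fun k => by
      show (k + 1) * Cb (k + 1) ≤ _ + _ + _ + _ + _
      omega
    have hG2 : ∀ k, Z (k + 1) ≤ G k := fun k => by
      show Z (k + 1) ≤ _ + _ + _ + _ + _
      omega
    have hG3 : ∀ k, (k + 1) * C k ≤ G k := fun k => by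
      show (k + 1) * C k ≤ _ + _ + _ + _ + _
      omega
    have hG4 : ∀ k, (k + 2) * C (k + 1) ≤ G k := fun k => by
      show (k + 2) * C (k + 1) ≤ _ + _ + _ + _ + _
      omega
    have hGC : ∀ k, C k ≤ G k := fun k =>
      (Nat.le_mul_of_pos_left (C k) (Nat.succ_pos k)).trans (hG3 k)
    obtain ⟨τ, P, hD⟩ := exists_dat hW hN hn hb hG0 hGC a
    refine ⟨_, hD.mem hN hG0, tendsto_of (P := P) (fun k => ?_) fun k N hk h1 h2 => ?_⟩
    · have h1 := hD.low k
      have h2 := hG0 k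
      omega
    · exact hD.main hnC hZ hG1 hG2 hG3 hG4 k N hk h1 h2
  have core2 : ∀ a : ℕ → Bool, (∀ n, Tendsto (fun N : ℕ =>
      ({i | i < N ∧ ¬ ∃ x ∈ Xs W, win a i n = win x 0 n}.ncard : ℝ) / N) atTop (𝓝 0)) →
      ∃ y ∈ Xs W, Tendsto (fun N : ℕ => (mis a y N : ℝ) / N) atTop (𝓝 0) := by
    intro a ha
    choose Z hZ using fun k => exists_threshold (ha (n k)) ((k + 1) * n k)
    refine core a Z fun k N hN => ?_
    refine le_trans ?_ (hZ k N hN)
    rw [← mul_assoc]
    refine Nat.mul_le_mul_left _ ?_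
    unfold bad
    refine Set.ncard_le_ncard ?_ ((Set.finite_Iio N).subset fun _ hi => hi.1)
    rintro i ⟨h1, h2⟩
    refine ⟨h1, ?_⟩
    rintro ⟨x, hx, h3⟩
    apply h2
    rw [h3]
    exact hx k 0 (n k)
  -- two points
  have hne : ∃ x, x ∈ Xs W := by
    -- the construction for any sequence
    have hG0 : ∀ k : ℕ, k + 2 ≤ (k + 2) + C k := fun k => by omega
    obtain ⟨τ, P, hD⟩ := exists_dat (G := fun k => (k + 2) + C k) hW hN hn hb hG0
      (fun k => by omega) fun _ => true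
    exact ⟨_, hD.mem hN hG0⟩
  obtain ⟨x, hx⟩ := hne
  have hlet : ∀ b : Bool, ∃ i, x i = b := by
    intro b
    obtain ⟨w, hw, h2⟩ := hin2 (W 1) _ (M 1) (hL 1) (win x 0 (2 * M 1)) (hx 1 0 _)
      (by rw [win_length])
    have hb' : [b] ∈ W 0 := by
      rw [hW]
      exact ⟨by simp, by simp⟩
    obtain ⟨s, t, hst⟩ := ((hN 0).pair w hw [b] hb' [b] hb').trans h2
    have h3 : (win x 0 (2 * M 1))[s.length]? = some b := by
      rw [← hst]
      simp
    unfold win at h3
    rw [List.getElem?_map] at h3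
    rcases hr : (List.range (2 * M 1))[s.length]? with _ | r
    · rw [hr] at h3
      simp at h3
    · rw [hr] at h3
      simp only [Option.map_some, Option.some.injEq] at h3
      exact ⟨_, h3⟩
  obtain ⟨i, hi⟩ := hlet true
  obtain ⟨j, hj⟩ := hlet false
  have hsh : ∀ m, (fun t => x (t + m)) ∈ Xs W := by
    intro m
    induction m with
    | zero => exact hx
    | succ m ih =>
      have h1 := xs_shift ih
      have h2 : (fun i => (fun t => x (t + m)) (i + 1)) = fun t => x (t + (m + 1)) := by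
        funext t
        show x (t + 1 + m) = x (t + (m + 1))
        congr 1
        omega
      rwa [h2] at h1
  refine hmet (Xs W) xs_closed (fun x hx => xs_shift hx) ⟨_, hsh i, _, hsh j, ?_⟩
    (xs_min hL hN hin1 hin2) core2
  intro h
  have h1 := congrFun h 0
  simp only [Nat.zero_add] at h1
  rw [hi, hj] at h1
  exact Bool.noConfusion h1

end Pool.Agent.J6H55.MA
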