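import Pool.Agent.J6H55.MA.Rec

/-!
# The sequence of levels and the shift space
-/

set_option autoImplicit false

namespace Pool.Agent.J6H55.MA

/-- the relation between two levels -/
structure Nxt (k : ℕ) (W W' : Set (List Bool)) (C : ℕ) : Prop where
  sub : W' ⊆ Cat W
  pair : ∀ w ∈ W', ∀ v ∈ W, ∀ v' ∈ W, v ++ v' <:+: w
  step : ∀ (x : ℕ → Bool) (P : ℕ), C ≤ P → win x 0 P ∈ Cat W → ∃ x' : ℕ → Bool,
    win x' 0 P ∈ Cat W' ∧ (∀ i < k + 2, x i = x' i) ∧
      ∀ N, N + C ≤ P → 2 ^ (k + 1) * mis x x' N ≤ N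

/-- the words of length one and two -/
def W₀ : Set (List Bool) := {v | 1 ≤ v.length ∧ v.length ≤ 2}

theorem lev₀ : Lev W₀ 1 2 :=
  ⟨le_rfl, fun _ h => h.1, fun _ h => h.2, [true], ⟨by simp, by simp⟩, [true, true],
    ⟨by simp, by simp⟩, by simp⟩

theorem cat₀ (s : List Bool) : s ∈ Cat W₀ := by
  refine ⟨s.map fun b => [b], ?_, ?_⟩
  · intro v hv
    obtain ⟨b, -, rfl⟩ := List.mem_map.1 hv
    exact ⟨by simp, by simp⟩
  · induction s with
    | nil => rfl
    | cons b s ih => rw [List.map_cons, List.flatten_cons, ← ih]; rfl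

theorem levels (hstep : S_step) : ∃ (W : ℕ → Set (List Bool)) (M C : ℕ → ℕ),
    (∀ k, Lev (W k) (k + 1) (M k)) ∧ W 0 = W₀ ∧ ∀ k, Nxt k (W k) (W (k + 1)) (C k) := by
  classical
  obtain ⟨s, h1, h2⟩ := exists_seq (α := Set (List Bool) × ℕ)
    (Good := fun k s => Lev s.1 (k + 1) s.2 ∧ (k = 0 → s.1 = W₀))
    (Rel := fun k s s' => ∃ C, Nxt k s.1 s'.1 C) ⟨(W₀, 2), lev₀, fun _ => rfl⟩ (by
      rintro k ⟨W, M⟩ ⟨hL, -⟩
      obtain ⟨W', M', C, h1, h2, h3, h4⟩ := hstep W (k + 1) M hL (2 ^ (k + 1)) (k + 1 + 1) (by omega)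
      exact ⟨(W', M'), ⟨h1, fun h => by omega⟩, C, h2, h3, h4⟩)
  choose C hC using h2
  exact ⟨fun k => (s k).1, fun k => (s k).2, C, fun k => (h1 k).1, (h1 0).2 rfl, hC⟩

section

variable {W : ℕ → Set (List Bool)} {M C : ℕ → ℕ}

/-- the shift space -/
def Xs (W : ℕ → Set (List Bool)) : Set (ℕ → Bool) := {x | ∀ k i n, win x i n ∈ Lng (W k)}

theorem xs_shift {x : ℕ → Bool} (hx : x ∈ Xs W) : (fun i => x (i + 1)) ∈ Xs W := by
  intro k i n
  have h : win (fun i => x (i + 1)) i n = win x (i + 1) n := win_congr fun t _ => by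
    show x (i + t + 1) = x (i + 1 + t)
    congr 1
    omega
  rw [h]
  exact hx k (i + 1) n

theorem closed_win (i n : ℕ) (S : Set (List Bool)) : IsClosed {x : ℕ → Bool | win x i n ∈ S} := by
  let f : (ℕ → Bool) → (Fin (i + n) → Bool) := fun x t => x t
  have hf : Continuous f := continuous_pi fun t => continuous_apply _
  have h : {x : ℕ → Bool | win x i n ∈ S} = f ⁻¹' (f '' {x : ℕ → Bool | win x i n ∈ S}) := by
    refine Set.Subset.antisymm (Set.subset_preimage_image _ _) ?_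
    rintro x ⟨y, hy, hxy⟩
    have h1 : win x i n = win y i n := win_congr fun t ht => by
      have := congrFun hxy ⟨i + t, by omega⟩
      exact this.symm
    show win x i n ∈ S
    rw [h1]
    exact hy
  rw [h]
  exact (isClosed_discrete _).preimage hf

theorem xs_closed : IsClosed (Xs W) := by
  have h : Xs W = ⋂ (k : ℕ) (i : ℕ) (n : ℕ), {x | win x i n ∈ Lng (W k)} := by
    ext x
    simp only [Set.mem_iInter]
    rfl
  rw [h]
  exact isClosed_iInter fun k => isClosed_iInter fun i => isClosed_iInter fun n => closed_win i n _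

theorem sub_of_le (hN : ∀ k, Nxt k (W k) (W (k + 1)) (C k)) {j k : ℕ} (h : j ≤ k) :
    Cat (W k) ⊆ Cat (W j) := by
  induction k with
  | zero =>
    have : j = 0 := by omega
    rw [this]
  | succ k ih =>
    rcases Nat.lt_or_ge k j with h1 | h1
    · have : j = k + 1 := by omega
      rw [this]
    · exact (cat_mono (hN k).sub).trans (ih h1)

/-- every sequence in `X` contains every word of every sequence in `X` -/
theorem xs_min (hL : ∀ k, Lev (W k) (k + 1) (M k)) (hN : ∀ k, Nxt k (W k) (W (k + 1)) (C k))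
    (hin1 : S_in1) (hin2 : S_in2) : ∀ x ∈ Xs W, ∀ y ∈ Xs W, ∀ n, ∃ i, ∀ t < n, x (i + t) = y t := by
  intro x hx y hy n
  obtain ⟨v, hv, v', hv', h1⟩ := hin1 (W n) (n + 1) (M n) (hL n) (win y 0 n) (hy n 0 n) (by
    rw [win_length]
    omega)
  obtain ⟨w, hw, h2⟩ := hin2 (W (n + 1)) _ (M (n + 1)) (hL (n + 1)) (win x 0 (2 * M (n + 1)))
    (hx (n + 1) 0 _) (by rw [win_length])
  have h3 : win y 0 n <:+: win x 0 (2 * M (n + 1)) :=
    (h1.trans ((hN n).pair w hw v hv v' hv')).trans h2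
  obtain ⟨s, t, hst⟩ := h3
  refine ⟨s.length, fun r hr => ?_⟩
  have h4 : 2 * M (n + 1) = s.length + (n + t.length) := by
    have := congrArg List.length hst
    rw [List.length_append, List.length_append, win_length, win_length] at this
    omega
  rw [h4, win_add, win_add, Nat.zero_add, List.append_assoc] at hst
  have h5 := List.append_inj hst (by rw [win_length])
  have h6 := List.append_inj h5.2 (by rw [win_length, win_length])
  have h7 := win_eq_iff h6.1 r hr
  rw [Nat.zero_add] at h7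
  exact h7.symm

end

end Pool.Agent.J6H55.MA
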