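import Pool.Agent.J6H55.MA.Stm

/-!
# The limit construction
-/

set_option autoImplicit false

namespace Pool.Agent.J6H55.MA

theorem exists_seq {α : Type} (Good : ℕ → α → Prop) (Rel : ℕ → α → α → Prop) (h0 : ∃ a, Good 0 a)
    (hs : ∀ k a, Good k a → ∃ b, Good (k + 1) b ∧ Rel k a b) :
    ∃ s : ℕ → α, (∀ k, Good k (s k)) ∧ ∀ k, Rel k (s k) (s (k + 1)) := by
  classical
  obtain ⟨a0, ha0⟩ := h0
  choose nx hnx1 hnx2 using hs
  let s : (k : ℕ) → {a : α // Good k a} := fun k =>
    Nat.rec ⟨a0, ha0⟩ (fun k a => ⟨nx k a.1 a.2, hnx1 k a.1 a.2⟩) k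
  exact ⟨fun k => (s k).1, fun k => (s k).2, fun k => hnx2 k (s k).1 (s k).2⟩

/-! ### words -/

theorem win_length (x : ℕ → Bool) (i n : ℕ) : (win x i n).length = n := by
  unfold win
  simp

theorem win_congr {x y : ℕ → Bool} {i j n : ℕ} (h : ∀ t < n, x (i + t) = y (j + t)) :
    win x i n = win y j n := by
  unfold win
  refine List.map_congr_left fun t ht => ?_
  exact h t (List.mem_range.1 ht)

theorem win_add (x : ℕ → Bool) (i n m : ℕ) : win x i (n + m) = win x i n ++ win x (i + n) m := by
  unfold win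
  rw [List.range_add, List.map_append, List.map_map]
  congr 1
  refine List.map_congr_left fun t _ => ?_
  simp [Nat.add_assoc]

theorem win_infix (x : ℕ → Bool) {i n P : ℕ} (h : i + n ≤ P) : win x i n <:+: win x 0 P := by
  obtain ⟨m, rfl⟩ := Nat.exists_eq_add_of_le h
  refine ⟨win x 0 i, win x (i + n) m, ?_⟩
  rw [win_add, win_add]
  simp

theorem win_eq_iff {x y : ℕ → Bool} {i j n : ℕ} (h : win x i n = win y j n) :
    ∀ t < n, x (i + t) = y (j + t) := by
  intro t ht
  have h1 := congrArg (fun l => l[t]?) h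
  unfold win at h1
  simp only [List.getElem?_map, List.getElem?_range ht, Option.map_some, Option.some.injEq] at h1
  exact h1

theorem cat_nil (W : Set (List Bool)) : [] ∈ Cat W := ⟨[], by simp, by simp⟩

theorem cat_append {W : Set (List Bool)} {s t : List Bool} (hs : s ∈ Cat W) (ht : t ∈ Cat W) :
    s ++ t ∈ Cat W := by
  obtain ⟨l, hl, rfl⟩ := hs
  obtain ⟨l', hl', rfl⟩ := ht
  refine ⟨l ++ l', ?_, by rw [List.flatten_append]⟩
  intro v hv
  rcases List.mem_append.1 hv with h | h
  · exact hl v h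
  · exact hl' v h

theorem cat_of {W : Set (List Bool)} {s : List Bool} (hs : s ∈ W) : s ∈ Cat W :=
  ⟨[s], by simpa using hs, by simp⟩

theorem cat_mono {W W' : Set (List Bool)} (h : W' ⊆ Cat W) : Cat W' ⊆ Cat W := by
  rintro _ ⟨l, hl, rfl⟩
  induction l with
  | nil => exact cat_nil W
  | cons v l ih =>
    rw [List.flatten_cons]
    exact cat_append (h (hl v (by simp))) (ih fun w hw => hl w (by simp [hw]))

theorem lng_mono {W W' : Set (List Bool)} (h : W' ⊆ Cat W) : Lng W' ⊆ Lng W := by
  rintro w ⟨s, hs, hw⟩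
  exact ⟨s, cat_mono h hs, hw⟩

theorem lng_infix {W : Set (List Bool)} {w w' : List Bool} (h : w' ∈ Lng W) (hw : w <:+: w') :
    w ∈ Lng W := by
  obtain ⟨s, hs, h'⟩ := h
  exact ⟨s, hs, hw.trans h'⟩

/-! ### mismatches -/

theorem mis_le (x y : ℕ → Bool) (N : ℕ) : mis x y N ≤ N := by
  unfold mis
  exact (Finset.card_filter_le _ _).trans (by rw [Finset.card_range])

theorem mis_mono (x y : ℕ → Bool) {N N' : ℕ} (h : N ≤ N') : mis x y N ≤ mis x y N' := by
  unfold mis
  exact Finset.card_le_card (Finset.filter_subset_filter _ (Finset.range_mono h))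

theorem mis_tri (x y z : ℕ → Bool) (N : ℕ) : mis x z N ≤ mis x y N + mis y z N := by
  unfold mis
  refine (Finset.card_le_card ?_).trans (Finset.card_union_le _ _)
  intro i hi
  rw [Finset.mem_union, Finset.mem_filter, Finset.mem_filter]
  rw [Finset.mem_filter] at hi
  by_cases h : x i = y i
  · right
    exact ⟨hi.1, fun h' => hi.2 (h.trans h')⟩
  · left
    exact ⟨hi.1, h⟩

theorem mis_congr {x y x' y' : ℕ → Bool} {N : ℕ} (hx : ∀ i < N, x i = x' i)
    (hy : ∀ i < N, y i = y' i) : mis x y N = mis x' y' N := by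
  unfold mis
  congr 1
  refine Finset.filter_congr fun i hi => ?_
  rw [hx i (Finset.mem_range.1 hi), hy i (Finset.mem_range.1 hi)]

theorem mis_add (x y : ℕ → Bool) (P N : ℕ) :
    mis x y (P + N) = mis x y P + mis (fun i => x (P + i)) (fun i => y (P + i)) N := by
  unfold mis
  rw [Finset.range_eq_Ico, Finset.range_eq_Ico, Finset.range_eq_Ico]
  have h1 : (Finset.Ico 0 (P + N)) = Finset.Ico 0 P ∪ (Finset.Ico P (P + N)) :=
    (Finset.Ico_union_Ico_eq_Ico (Nat.zero_le _) (Nat.le_add_right _ _)).symm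
  rw [h1, Finset.filter_union, Finset.card_union_of_disjoint]
  · congr 1
    refine (Finset.card_bij (fun i _ => P + i) ?_ ?_ ?_).symm
    · intro i hi
      simp only [Finset.mem_filter, Finset.mem_Ico] at hi ⊢
      exact ⟨⟨by omega, by omega⟩, hi.2⟩
    · intro i _ j _ h
      omega
    · intro j hj
      simp only [Finset.mem_filter, Finset.mem_Ico] at hj
      refine ⟨j - P, ?_, by omega⟩
      simp only [Finset.mem_filter, Finset.mem_Ico]
      have : P + (j - P) = j := by omega
      rw [this]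
      exact ⟨⟨by omega, by omega⟩, hj.2⟩
  · refine Finset.disjoint_filter_filter (Finset.Ico_disjoint_Ico_consecutive _ _ _)

theorem mis_add_le (x y : ℕ → Bool) (P N : ℕ) : mis x y (P + N) ≤ mis x y P + N := by
  rw [mis_add]
  exact Nat.add_le_add_left (mis_le _ _ _) _

/-! ### gluing -/

/-- `x` on `[0, P)` followed by `z` -/
def glue (x : ℕ → Bool) (P : ℕ) (z : ℕ → Bool) : ℕ → Bool := fun i => if i < P then x i else z (i - P)

theorem glue_lt {x : ℕ → Bool} {P : ℕ} {z : ℕ → Bool} {i : ℕ} (h : i < P) : glue x P z i = x i := by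
  unfold glue
  rw [if_pos h]

theorem glue_add {x : ℕ → Bool} {P : ℕ} {z : ℕ → Bool} {i : ℕ} : glue x P z (P + i) = z i := by
  unfold glue
  rw [if_neg (by omega), Nat.add_sub_cancel_left]

theorem win_glue (x : ℕ → Bool) (P : ℕ) (z : ℕ → Bool) (n : ℕ) :
    win (glue x P z) 0 (P + n) = win x 0 P ++ win z 0 n := by
  rw [win_add]
  congr 1
  · refine win_congr fun t ht => ?_
    rw [Nat.zero_add]
    exact glue_lt ht
  · refine win_congr fun t ht => ?_
    rw [Nat.zero_add, Nat.zero_add]
    exact glue_add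

/-- the number of bad windows -/
noncomputable def bad (W : Set (List Bool)) (a : ℕ → Bool) (n N : ℕ) : ℕ :=
  {i | i < N ∧ win a i n ∉ Lng W}.ncard

theorem bad_fin (W : Set (List Bool)) (a : ℕ → Bool) (n N : ℕ) :
    {i | i < N ∧ win a i n ∉ Lng W}.Finite :=
  (Set.finite_Iio N).subset fun _ hi => hi.1

theorem bad_mono (W : Set (List Bool)) (a : ℕ → Bool) (n : ℕ) {N N' : ℕ} (h : N ≤ N') :
    bad W a n N ≤ bad W a n N' :=
  Set.ncard_le_ncard (fun _ hi => ⟨lt_of_lt_of_le hi.1 h, hi.2⟩) (bad_fin _ _ _ _)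

theorem bad_succ (W : Set (List Bool)) (a : ℕ → Bool) (n : ℕ) {N N' : ℕ} (h : N < N')
    (hb : win a N n ∉ Lng W) : bad W a n N + 1 ≤ bad W a n N' := by
  have h1 : N ∉ {i | i < N ∧ win a i n ∉ Lng W} := fun h => lt_irrefl _ h.1
  unfold bad
  rw [← Set.ncard_insert_of_notMem h1 (bad_fin _ _ _ _)]
  refine Set.ncard_le_ncard ?_ (bad_fin _ _ _ _)
  rintro i (rfl | hi)
  · exact ⟨h, hb⟩
  · exact ⟨hi.1.trans h, hi.2⟩

/-- a long region -/
theorem region {W : Set (List Bool)} {n C : ℕ}
    (hb : ∀ x : ℕ → Bool, ∃ z : ℕ → Bool, win z 0 n ∈ Cat W ∧ (win x 0 n ∈ Lng W → mis x z n ≤ C))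
    (a : ℕ → Bool) (r : ℕ) : ∃ z : ℕ → Bool, win z 0 (r * n) ∈ Cat W ∧
      ∀ N ≤ r * n, ∀ j, N ≤ j * n → mis a z N ≤ C * j + n * bad W a n N := by
  induction r with
  | zero =>
    refine ⟨a, ?_, fun N hN j _ => ?_⟩
    · rw [Nat.zero_mul]
      exact cat_nil W
    · have : N = 0 := by omega
      subst this
      have h1 := mis_le a a 0
      omega
  | succ r ih =>
    obtain ⟨z, hz, hz'⟩ := ih
    obtain ⟨z1, hz1, hz1'⟩ := hb fun i => a (r * n + i)
    have hrn : (r + 1) * n = r * n + n := by ring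
    refine ⟨glue z (r * n) z1, ?_, fun N hN j hj => ?_⟩
    · rw [hrn, win_glue]
      exact cat_append hz hz1
    · rcases le_or_gt N (r * n) with h | h
      · rw [mis_congr (x' := a) (y' := z) (fun _ _ => rfl) fun i hi => glue_lt (lt_of_lt_of_le hi h)]
        exact hz' N h j hj
      · obtain ⟨m, rfl⟩ := Nat.exists_eq_add_of_le h.le
        have hm : m ≤ n := by omega
        have hm0 : 0 < m := by omega
        have hj1 : r + 1 ≤ j := by
          by_contra hcon
          have h1 : j ≤ r := by omega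
          have h2 : j * n ≤ r * n := Nat.mul_le_mul_right n h1
          omega
        have h1 := hz' (r * n) le_rfl r le_rfl
        have h2 : mis a (glue z (r * n) z1) (r * n + m) =
            mis a z (r * n) + mis (fun i => a (r * n + i)) z1 m := by
          rw [mis_add]
          congr 1
          · exact mis_congr (fun _ _ => rfl) fun i hi => glue_lt hi
          · exact mis_congr (fun _ _ => rfl) fun i hi => glue_add
        rw [h2]
        have h3 : C * (r + 1) ≤ C * j := Nat.mul_le_mul_left C hj1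
        have h3' : C * (r + 1) = C * r + C := by ring
        by_cases hw : win (fun i => a (r * n + i)) 0 n ∈ Lng W
        · have h4 := (mis_mono (fun i => a (r * n + i)) z1 hm).trans (hz1' hw)
          have h5 := Nat.mul_le_mul_left n (bad_mono W a n (Nat.le_add_right (r * n) m))
          omega
        · have h4 := (mis_le (fun i => a (r * n + i)) z1 m).trans hm
          have hw' : win a (r * n) n ∉ Lng W := by
            have h6 : win a (r * n) n = win (fun i => a (r * n + i)) 0 n :=
              win_congr fun t _ => by rw [Nat.zero_add]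
            rwa [h6]
          have h5 := Nat.mul_le_mul_left n (bad_succ W a n (Nat.lt_add_of_pos_right hm0) hw')
          have h6 : n * (bad W a n (r * n) + 1) = n * bad W a n (r * n) + n := by ring
          omega

theorem bad_shift (W : Set (List Bool)) (a : ℕ → Bool) (n P N : ℕ) :
    bad W (fun i => a (P + i)) n N ≤ bad W a n (P + N) := by
  unfold bad
  refine Set.ncard_le_ncard_of_injOn (fun i => P + i) ?_ ?_ (bad_fin _ _ _ _)
  · rintro i ⟨h1, h2⟩
    refine ⟨by omega, ?_⟩
    have h3 : win a (P + i) n = win (fun i => a (P + i)) i n := win_congr fun t _ => by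
      simp only [Nat.add_assoc]
    rwa [h3]
  · intro i _ j _ h
    exact Nat.add_left_cancel h

end Pool.Agent.J6H55.MA
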