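import Mathlib

/-!
# A minimal system with the asymptotic average shadowing property: definitions and statements

Words are lists over `Bool`. `W k` are finite sets of words; `W (k+1)` consists of the words `s ++ u`, where `s` is
an arbitrary concatenation of words in `W k` of length in `[T, 2T]`, `T` large, and `u = u k` is a fixed
concatenation which contains all `v ++ v'`, `v`, `v'` in `W k`. The system `X` is the one-sided shift space of all
sequences whose windows are subwords of concatenations of words of `W k`, for all `k`.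
-/

set_option autoImplicit false

namespace Pool.Agent.J6H55.MA

/-- the window of length `n` of `x` at `i` -/
def win (x : ℕ → Bool) (i n : ℕ) : List Bool := (List.range n).map fun t => x (i + t)

/-- finite concatenations of words in `W` -/
def Cat (W : Set (List Bool)) : Set (List Bool) :=
  {s | ∃ l : List (List Bool), (∀ v ∈ l, v ∈ W) ∧ s = l.flatten}

/-- subwords of finite concatenations of words in `W` -/
def Lng (W : Set (List Bool)) : Set (List Bool) := {w | ∃ s ∈ Cat W, w <:+: s}

/-- a level: the lengths of the words in `W` are between `K ≥ 1` and `M`, and two of them are consecutive -/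
structure Lev (W : Set (List Bool)) (K M : ℕ) : Prop where
  pos : 1 ≤ K
  lo : ∀ v ∈ W, K ≤ v.length
  hi : ∀ v ∈ W, v.length ≤ M
  two : ∃ v ∈ W, ∃ v' ∈ W, v'.length = v.length + 1

/-- the number of the `i < N` with `x i ≠ y i` -/
def mis (x y : ℕ → Bool) (N : ℕ) : ℕ := ((Finset.range N).filter fun i => x i ≠ y i).card

/-- (MA-FRO) all large lengths occur. Proof: lengths `A`, `A + 1` occur in `W`, `A ≥ 1`; `F = A * A`; for
`n ≥ A * A`, `n = q A + r`, `r < A ≤ q`: `r` words of length `A + 1` and `q - r` words of length `A`. -/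
def S_fro : Prop := ∀ (W : Set (List Bool)) (K M : ℕ), Lev W K M →
  ∃ F, ∀ n, F ≤ n → ∃ s ∈ Cat W, s.length = n

/-- (MA-UU) a word which contains all `v ++ v'`. Proof: `W` is finite (`List.finite_length_le`); induction over
the finite set `W ×ˢ W`, or flatten of the list of all `v ++ v'`. -/
def S_uu : Prop := ∀ (W : Set (List Bool)) (K M : ℕ), Lev W K M →
  ∃ u ∈ Cat W, ∀ v ∈ W, ∀ v' ∈ W, v ++ v' <:+: u

/-- (MA-GRP) the basic step. Proof: with lists: let `P = l.flatten.length`, `l` a list of words in `W`, and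
`C = F' + T + 2 M + u.length + F`. Claim, by strong induction on `l.length`: if `F' ≤ P` there is `s'` in `Cat W'` of
length `P` such that, if `C ≤ P`, `s'` agrees with `l.flatten` in the first `T` letters, and for all `N` with `N + C ≤ P`:
`T * (number of the i < N with s'[i] ≠ l.flatten[i]) ≤ U * N`. If `P < C`: any `s'` in `Cat W'` of length
`P`. Otherwise split `l = l₁ ++ l₂ ++ l₃` with `T ≤ |l₁.flatten| < T + M`,
`|u| + F ≤ |l₂.flatten| < |u| + F + M`, choose `f` in `Cat W` of length `|l₂.flatten| - |u| ≥ F`, and let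
`s' = (l₁.flatten ++ f ++ u) ++ s₃'`, `s₃'` from the induction hypothesis for `l₃` (`|l₃.flatten| ≥ F'`). The first
word is in `W'` (`|l₁.flatten ++ f| ≤ T + M + F + M ≤ 2 T`). The mismatches in the first part are at most
`U = |u| + F + M` in number and at positions `≥ T`; the first part has length `≥ T`. -/
def S_grp : Prop := ∀ (W : Set (List Bool)) (K M : ℕ), Lev W K M →
  ∀ F, (∀ n, F ≤ n → ∃ s ∈ Cat W, s.length = n) → ∀ u ∈ Cat W, ∀ T, 2 * M + F ≤ T →
  ∀ W' : Set (List Bool), W' = {w | ∃ s ∈ Cat W, T ≤ s.length ∧ s.length ≤ 2 * T ∧ w = s ++ u} →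
  ∀ F', (∀ n, F' ≤ n → ∃ s ∈ Cat W', s.length = n) →
  ∃ C, ∀ (x : ℕ → Bool) (P : ℕ), C ≤ P → win x 0 P ∈ Cat W → ∃ x' : ℕ → Bool, win x' 0 P ∈ Cat W' ∧
    (∀ i < T, x i = x' i) ∧ ∀ N, N + C ≤ P → T * mis x x' N ≤ (u.length + F + M) * N

/-- (MA-STEP) the next level, from `S_fro`, `S_uu`, `S_grp`. Proof: `T` the maximum (or sum) of `2 * M + F`,
`K'`, `1` and `D * (u.length + F + M)`; `W'` as in `S_grp`, `M' = 2 * T + u.length`; `Lev W' K' M'`: words
`s ++ u` with `s` of length `T`, `T + 1`. `W' ⊆ Cat W` since `u ∈ Cat W`. `S_fro` for `W'` gives `F'`. -/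
def S_step : Prop := ∀ (W : Set (List Bool)) (K M : ℕ), Lev W K M → ∀ D K' : ℕ, 1 ≤ K' →
  ∃ (W' : Set (List Bool)) (M' C : ℕ), Lev W' K' M' ∧ W' ⊆ Cat W ∧
    (∀ w ∈ W', ∀ v ∈ W, ∀ v' ∈ W, v ++ v' <:+: w) ∧
    ∀ (x : ℕ → Bool) (P : ℕ), C ≤ P → win x 0 P ∈ Cat W → ∃ x' : ℕ → Bool, win x' 0 P ∈ Cat W' ∧
      (∀ i < K', x i = x' i) ∧ ∀ N, N + C ≤ P → D * mis x x' N ≤ N

/-- (MA-BLK) words of the language and concatenations. Proof: `F` as in `S_fro`, `C = 2 * (M + F + M)` (or
larger). If `win x 0 n` is a subword of `l.flatten`, `l` a list of words in `W`: then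
`win x 0 n = a ++ l'.flatten ++ e`, `l'` a part of `l`, `|a|, |e| ≤ M`. (If `n ≤ C` nothing to prove: use `S_fro`
with `C ≥ F`; or choose `C` so that the case is trivial.) Split `l' = l₁ ++ l₂ ++ l₃` with
`F ≤ |l₁.flatten| < F + M` and the same for `l₃` and replace `a ++ l₁.flatten` and `l₃.flatten ++ e` by words in
`Cat W` of the same lengths. -/
def S_blk : Prop := ∀ (W : Set (List Bool)) (K M : ℕ), Lev W K M →
  ∃ C, ∀ n, C ≤ n → ∀ x : ℕ → Bool, ∃ z : ℕ → Bool, win z 0 n ∈ Cat W ∧
    (win x 0 n ∈ Lng W → mis x z n ≤ C)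

/-- (MA-IN1) a short subword is in the concatenation of two words. Proof: `w <:+: l.flatten`, induction on `l`:
`w` is empty, or starts in the first word `v` of `l = v :: l'` (then, as `|w| ≤ K ≤ |v'|`, it is a subword of
`v ++ v'`, `v'` the next word, or of `v ++ v` if there is none), or is a subword of `l'.flatten`. -/
def S_in1 : Prop := ∀ (W : Set (List Bool)) (K M : ℕ), Lev W K M → ∀ w ∈ Lng W, w.length ≤ K →
  ∃ v ∈ W, ∃ v' ∈ W, w <:+: v ++ v'

/-- (MA-IN2) a long subword contains a word of `W`. Proof: `l.flatten = a ++ w ++ e`, `2 M ≤ |w|`; induction on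
`l = v :: l'`: if `|v| ≤ |a|` drop `v`; otherwise `w = w₁ ++ w₂`, `|w₁| = |v| - |a|`, and the next word `v'` of `l'`
is a prefix of `w₂` (`|w₂| ≥ M`; `M ≥ 1`). -/
def S_in2 : Prop := ∀ (W : Set (List Bool)) (K M : ℕ), Lev W K M → ∀ w ∈ Lng W, 2 * M ≤ w.length →
  ∃ v ∈ W, v <:+: w

/-! ## The metric part -/

/-- every sequence `x` with average error tending to zero is followed in average by a point -/
def AASP {X : Type} [MetricSpace X] (f : X → X) : Prop :=
  ∀ x : ℕ → X, Filter.Tendsto (fun n : ℕ => (∑ i ∈ Finset.range n, dist (f (x i)) (x (i + 1))) / n)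
      Filter.atTop (nhds 0) →
    ∃ y : X, Filter.Tendsto (fun n : ℕ => (∑ i ∈ Finset.range n, dist (f^[i] y) (x i)) / n)
      Filter.atTop (nhds 0)

/-- `(X, f)` is minimal: `X` has no nonempty closed invariant proper subset -/
def Minimal {X : Type} [MetricSpace X] (f : X → X) : Prop :=
  ∀ A : Set X, IsClosed A → A.Nonempty → Set.MapsTo f A A → A = Set.univ

/-- (MA-MET) the metric part. `X` is a nonempty closed shift invariant set of sequences. Proof: the metric of
`ℕ → Bool` is `PiNat.metricSpace` (`PiNat.dist_eq_of_ne`, `PiNat.mem_cylinder_iff_dist_le`: `dist x y ≤ (1/2)^n` if and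
only if the first `n` letters agree), its topology the product topology, so the subtype of `X` is compact.
AASP: let `x` be a pseudo-orbit, `a j = x j 0`. If `dist (σ (x (i+s))) (x (i+s+1)) ≤ (1/2)^n` (or `< `) for all
`s < n` then `win a i n = win (x i) 0 n`; the number of the `i < N` for which this fails is at most
`n * 2^n * Σ_{j < N + n} dist (σ (x j)) (x (j+1)) = o(N)`. So the hypothesis gives `y` in `X` with
`mis a y N = o(N)`, and `dist (σ^i y) (x i) ≤ (1/2)^n` unless some `y (i+t) ≠ a (i+t)`, `t < n`, or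
`win a i n ≠ win (x i) 0 n`: the average is at most `(1/2)^n + (n * mis a y (N + n) + o(N)) / N`, for all `n`.
Minimality: a nonempty closed invariant `A` contains some `x`; by the hypothesis every `y` in `X` is a limit of
iterates of `x`. Two points: hypothesis. -/
def S_met : Prop := ∀ X : Set (ℕ → Bool), IsClosed X → (∀ x ∈ X, (fun i => x (i + 1)) ∈ X) →
  (∃ x ∈ X, ∃ y ∈ X, x ≠ y) →
  (∀ x ∈ X, ∀ y ∈ X, ∀ n, ∃ i, ∀ t < n, x (i + t) = y t) →
  (∀ a : ℕ → Bool, (∀ n, Filter.Tendsto (fun N : ℕ =>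
      ({i | i < N ∧ ¬ ∃ x ∈ X, win a i n = win x 0 n}.ncard : ℝ) / N)
      Filter.atTop (nhds 0)) →
    ∃ y ∈ X, Filter.Tendsto (fun N : ℕ => (mis a y N : ℝ) / N) Filter.atTop (nhds 0)) →
  ∃ (Y : Type) (_ : MetricSpace Y) (f : Y → Y), CompactSpace Y ∧ Continuous f ∧ Nontrivial Y ∧
    Minimal f ∧ AASP f

end Pool.Agent.J6H55.MA
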